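import Pool.Agent.Q292.LC.Stm3

/-!
# Project LC: Nash inequality off a sparse set (job LC-NAS of helper292)
-/

set_option autoImplicit false

namespace Pool.Agent.Q187.LC.Nas

open Finset Equiv Matrix Q292.LC

variable {d L : ℕ} [NeZero L]

theorem card_low (N : ℕ) (h : N ≤ L) :
    (Finset.univ.filter fun a : ZMod L => a.val < N).card = N := by
  conv_rhs => rw [← Finset.card_range N]
  refine Finset.card_bij' (fun a _ => a.val) (fun n _ => (n : ZMod L)) ?_ ?_ ?_ ?_
  · intro a ha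
    rw [Finset.mem_filter] at ha
    exact Finset.mem_range.mpr ha.2
  · intro n hn
    rw [Finset.mem_range] at hn
    rw [Finset.mem_filter]
    refine ⟨Finset.mem_univ _, ?_⟩
    rw [ZMod.val_natCast_of_lt (lt_of_lt_of_le hn h)]
    exact hn
  · intro a _
    exact ZMod.natCast_zmod_val a
  · intro n hn
    rw [Finset.mem_range] at hn
    exact ZMod.val_natCast_of_lt (lt_of_lt_of_le hn h)

theorem card_cover (x : Fin d → ZMod L) (N : ℕ) (h : N ≤ L) :
    (Finset.univ.filter fun z : Fin d → ZMod L => x ∈ box z N).card = N ^ d := by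
  have h1 : (Fintype.piFinset fun _ : Fin d => Finset.univ.filter fun a : ZMod L => a.val < N).card
      = N ^ d := by
    rw [Fintype.card_piFinset]
    simp only [card_low N h, Finset.prod_const, Finset.card_univ, Fintype.card_fin]
  rw [← h1]
  refine Finset.card_bij' (fun z _ => x - z) (fun z _ => x - z) ?_ ?_ ?_ ?_
  · intro z hz
    rw [Finset.mem_filter] at hz
    rw [Fintype.mem_piFinset]
    intro i
    rw [Finset.mem_filter]
    refine ⟨Finset.mem_univ _, ?_⟩
    have := hz.2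
    unfold Q292.LC.box at this
    rw [Finset.mem_filter] at this
    exact this.2 i
  · intro z hz
    rw [Fintype.mem_piFinset] at hz
    rw [Finset.mem_filter]
    refine ⟨Finset.mem_univ _, ?_⟩
    unfold Q292.LC.box
    rw [Finset.mem_filter]
    refine ⟨Finset.mem_univ _, fun i => ?_⟩
    have := hz i
    rw [Finset.mem_filter] at this
    rw [Pi.sub_apply, sub_sub_cancel]
    exact this.2
  · intro z _
    exact sub_sub_cancel x z
  · intro z _
    exact sub_sub_cancel x z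

theorem cover_box (z : Fin d → ZMod L) (r M : ℕ) (hr : 1 ≤ r) :
    box z (M * r) ⊆ (Finset.univ : Finset (Fin d → Fin M)).biUnion fun α =>
      box (fun i => z i + (((α i : ℕ) * r : ℕ) : ZMod L)) r := by
  intro x hx
  unfold Q292.LC.box at hx
  rw [Finset.mem_filter] at hx
  rw [Finset.mem_biUnion]
  have hlt : ∀ i, (x i - z i).val / r < M := fun i =>
    Nat.div_lt_of_lt_mul (by have := hx.2 i; rwa [mul_comm] at this)
  refine ⟨fun i => ⟨(x i - z i).val / r, hlt i⟩, Finset.mem_univ _, ?_⟩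
  unfold Q292.LC.box
  rw [Finset.mem_filter]
  refine ⟨Finset.mem_univ _, fun i => ?_⟩
  have h1 : (x i - (z i + ((((x i - z i).val / r : ℕ) * r : ℕ) : ZMod L))) =
      (((x i - z i).val % r : ℕ) : ZMod L) := by
    have h2 : ((x i - z i).val : ZMod L) = x i - z i := ZMod.natCast_zmod_val _
    have h3 := Nat.mod_add_div (x i - z i).val r
    have h4 : (((x i - z i).val % r : ℕ) : ZMod L) +
        (((x i - z i).val / r * r : ℕ) : ZMod L) = x i - z i := by
      rw [← Nat.cast_add, mul_comm, h3, h2]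
    rw [← sub_sub]
    exact sub_eq_of_eq_add h4.symm
  rw [h1]
  have h5 : (x i - z i).val % r < r := Nat.mod_lt _ (by omega)
  have h6 : (x i - z i).val < L := ZMod.val_lt _
  rw [ZMod.val_natCast_of_lt (lt_of_le_of_lt (Nat.mod_le _ _) h6)]
  exact h5

theorem card_Dm (z : Fin d → ZMod L) (r M : ℕ) (hr : 1 ≤ r) (Dm : Finset (Fin d → ZMod L))
    (hD : ∀ v, 2 * (Dm ∩ box v r).card ≤ r ^ d) :
    2 * (Dm ∩ box z (M * r)).card ≤ (M * r) ^ d := by
  have h1 : Dm ∩ box z (M * r) ⊆ (Finset.univ : Finset (Fin d → Fin M)).biUnion fun α =>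
      Dm ∩ box (fun i => z i + (((α i : ℕ) * r : ℕ) : ZMod L)) r := by
    intro x hx
    rw [Finset.mem_inter] at hx
    have := cover_box z r M hr hx.2
    rw [Finset.mem_biUnion] at this ⊢
    obtain ⟨α, h1, h2⟩ := this
    exact ⟨α, h1, Finset.mem_inter.mpr ⟨hx.1, h2⟩⟩
  have h2 := (Finset.card_le_card h1).trans Finset.card_biUnion_le
  calc 2 * (Dm ∩ box z (M * r)).card ≤ 2 * ∑ α : Fin d → Fin M,
        (Dm ∩ box (fun i => z i + (((α i : ℕ) * r : ℕ) : ZMod L)) r).card :=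
        Nat.mul_le_mul_left _ h2
    _ = ∑ α : Fin d → Fin M,
        2 * (Dm ∩ box (fun i => z i + (((α i : ℕ) * r : ℕ) : ZMod L)) r).card := by
        rw [Finset.mul_sum]
    _ ≤ ∑ _α : Fin d → Fin M, r ^ d := Finset.sum_le_sum fun α _ => hD _
    _ = (M * r) ^ d := by
        rw [Finset.sum_const, Finset.card_univ, Fintype.card_fun, Fintype.card_fin,
          Fintype.card_fin, smul_eq_mul, mul_pow]

theorem card_box (z : Fin d → ZMod L) (N : ℕ) (h : N ≤ L) : (box z N).card = N ^ d := by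
  have h1 : (Fintype.piFinset fun _ : Fin d => Finset.univ.filter fun a : ZMod L => a.val < N).card
      = N ^ d := by
    rw [Fintype.card_piFinset]
    simp only [card_low N h, Finset.prod_const, Finset.card_univ, Fintype.card_fin]
  rw [← h1]
  refine Finset.card_bij' (fun x _ => x - z) (fun u _ => u + z) ?_ ?_ ?_ ?_
  · intro x hx
    unfold Q292.LC.box at hx
    rw [Finset.mem_filter] at hx
    rw [Fintype.mem_piFinset]
    intro i
    rw [Finset.mem_filter]
    exact ⟨Finset.mem_univ _, hx.2 i⟩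
  · intro u hu
    rw [Fintype.mem_piFinset] at hu
    unfold Q292.LC.box
    rw [Finset.mem_filter]
    refine ⟨Finset.mem_univ _, fun i => ?_⟩
    have := hu i
    rw [Finset.mem_filter] at this
    rw [Pi.add_apply, add_sub_cancel_right]
    exact this.2
  · intro x _
    exact sub_add_cancel x z
  · intro u _
    exact add_sub_cancel_right u z

theorem sum_cover (N : ℕ) (h : N ≤ L) (Dm : Finset (Fin d → ZMod L))
    (g : (Fin d → ZMod L) → ℝ) :
    ∑ z : Fin d → ZMod L, ∑ x ∈ box z N \ Dm, g x = (N : ℝ) ^ d * ∑ x ∈ univ \ Dm, g x := by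
  have h1 : ∀ z : Fin d → ZMod L, ∑ x ∈ box z N \ Dm, g x =
      ∑ x ∈ univ \ Dm, if x ∈ box z N then g x else 0 := by
    intro z
    rw [← Finset.sum_filter]
    congr 1
    ext x
    simp only [Finset.mem_sdiff, Finset.mem_filter, Finset.mem_univ, true_and]
    tauto
  rw [Finset.sum_congr rfl fun z _ => h1 z, Finset.sum_comm, Finset.mul_sum]
  refine Finset.sum_congr rfl fun x _ => ?_
  rw [← Finset.sum_filter, Finset.sum_const, card_cover x N h, nsmul_eq_mul]
  push_cast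
  ring

theorem var_id {ι : Type} [DecidableEq ι] (Q : Finset ι) (f : ι → ℝ) :
    (Q.card : ℝ) * ∑ x ∈ Q, f x ^ 2 = (1 / 2) * ∑ x ∈ Q, ∑ y ∈ Q, (f x - f y) ^ 2 +
      (∑ x ∈ Q, f x) ^ 2 := by
  have h1 : ∑ x ∈ Q, ∑ y ∈ Q, (f x - f y) ^ 2 = (Q.card : ℝ) * ∑ x ∈ Q, f x ^ 2 -
      2 * (∑ x ∈ Q, f x) ^ 2 + (Q.card : ℝ) * ∑ x ∈ Q, f x ^ 2 := by
    have h2 : ∀ x y, (f x - f y) ^ 2 = f x ^ 2 - 2 * (f x * f y) + f y ^ 2 := by
      intro x y; ring
    simp only [h2, Finset.sum_add_distrib, Finset.sum_sub_distrib, Finset.sum_const,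
      nsmul_eq_mul, ← Finset.mul_sum]
    rw [← Finset.sum_mul]
    ring
  rw [h1]
  ring

theorem nas (hpoi : S_POI) : S_NAS := by
  intro d hd
  obtain ⟨C, hC1, hC⟩ := hpoi d hd
  refine ⟨C + 1, by linarith, ?_⟩
  intro L _ r M hr hM hML Dm hD f hf
  set N := M * r with hN
  have hNpos : 0 < N := Nat.mul_pos (by omega) (by omega)
  have hNR : (0 : ℝ) < (N : ℝ) ^ d := by positivity
  set h : (Fin d → ZMod L) → (Fin d → ZMod L) → ℝ := fun x y =>
    if td x y ≤ 2 * d * r then (f x - f y) ^ 2 else 0 with hh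
  have hh0 : ∀ x y, 0 ≤ h x y := by
    intro x y
    simp only [hh]
    split_ifs
    · positivity
    · exact le_rfl
  have hfs : 0 ≤ ∑ x, f x := Finset.sum_nonneg fun x _ => hf x
  -- the energy
  have hE : ∑ x, ∑ y, (if x ∉ Dm ∧ y ∉ Dm ∧ td x y ≤ 2 * d * r then (f x - f y) ^ 2 else 0) =
      ∑ x ∈ univ \ Dm, ∑ y ∈ univ \ Dm, h x y := by
    have e1 : (univ \ Dm : Finset (Fin d → ZMod L)) = univ.filter fun x => x ∉ Dm := by
      ext x; simp
    rw [e1, Finset.sum_filter]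
    refine Finset.sum_congr rfl fun x _ => ?_
    by_cases hx : x ∉ Dm
    · rw [if_pos hx, Finset.sum_filter]
      refine Finset.sum_congr rfl fun y _ => ?_
      by_cases hy : y ∉ Dm
      · rw [if_pos hy]
        simp only [hh, hx, hy, not_false_eq_true, true_and]
      · rw [if_neg hy, if_neg (fun h => hy h.2.1)]
    · rw [if_neg hx]
      exact Finset.sum_eq_zero fun y _ => if_neg (fun h => hx h.1)
  rw [hE]
  set E := ∑ x ∈ univ \ Dm, ∑ y ∈ univ \ Dm, h x y with hEdef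
  -- each box
  have hbox : ∀ z : Fin d → ZMod L, (N : ℝ) ^ d / 2 * ∑ x ∈ box z N \ Dm, f x ^ 2 ≤
      (1 / 2) * (C * M ^ (d + 2) * ∑ x ∈ box z N \ Dm, ∑ y ∈ univ \ Dm, h x y) +
      (∑ x ∈ box z N \ Dm, f x) * ∑ x, f x := by
    intro z
    have hc1 := card_Dm z r M hr Dm hD
    have hc2 := card_box z N hML
    have hc3 : (box z N \ Dm).card + (Dm ∩ box z N).card = N ^ d := by
      rw [← hc2, Finset.inter_comm]
      exact Finset.card_sdiff_add_card_inter _ _
    rw [← hN] at hc1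
    have hc4 : N ^ d ≤ 2 * (box z N \ Dm).card := by omega
    have hc5 : (N : ℝ) ^ d / 2 ≤ ((box z N \ Dm).card : ℝ) := by
      have : ((N ^ d : ℕ) : ℝ) ≤ ((2 * (box z N \ Dm).card : ℕ) : ℝ) := by exact_mod_cast hc4
      push_cast at this
      linarith
    have h1 := hC L r M hr hM hML z Dm hD f
    rw [← hN] at h1
    have h2 := var_id (box z N \ Dm) f
    have h3 : ∑ x ∈ box z N \ Dm, ∑ y ∈ box z N \ Dm,
        (if td x y ≤ 2 * d * r then (f x - f y) ^ 2 else 0) ≤
        ∑ x ∈ box z N \ Dm, ∑ y ∈ univ \ Dm, h x y := by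
      refine Finset.sum_le_sum fun x _ => ?_
      refine Finset.sum_le_sum_of_subset_of_nonneg ?_ (fun y _ _ => hh0 x y)
      exact Finset.sdiff_subset_sdiff (Finset.subset_univ _) le_rfl
    have h4 : 0 ≤ ∑ x ∈ box z N \ Dm, f x ^ 2 := Finset.sum_nonneg fun x _ => sq_nonneg _
    have h5 : 0 ≤ ∑ x ∈ box z N \ Dm, f x := Finset.sum_nonneg fun x _ => hf x
    have h6 : ∑ x ∈ box z N \ Dm, f x ≤ ∑ x, f x :=
      Finset.sum_le_sum_of_subset_of_nonneg (Finset.subset_univ _) (fun x _ _ => hf x)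
    have h7 : (∑ x ∈ box z N \ Dm, f x) ^ 2 ≤ (∑ x ∈ box z N \ Dm, f x) * ∑ x, f x := by
      rw [sq]
      exact mul_le_mul_of_nonneg_left h6 h5
    have h8 : C * M ^ (d + 2) * ∑ x ∈ box z N \ Dm, ∑ y ∈ box z N \ Dm,
        (if td x y ≤ 2 * d * r then (f x - f y) ^ 2 else 0) ≤
        C * M ^ (d + 2) * ∑ x ∈ box z N \ Dm, ∑ y ∈ univ \ Dm, h x y :=
      mul_le_mul_of_nonneg_left h3 (by positivity)
    calc (N : ℝ) ^ d / 2 * ∑ x ∈ box z N \ Dm, f x ^ 2 ≤
        ((box z N \ Dm).card : ℝ) * ∑ x ∈ box z N \ Dm, f x ^ 2 :=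
          mul_le_mul_of_nonneg_right hc5 h4
      _ = _ := h2
      _ ≤ _ := by linarith
  have hsum := Finset.sum_le_sum fun z (_ : z ∈ (univ : Finset (Fin d → ZMod L))) => hbox z
  rw [← Finset.mul_sum, Finset.sum_add_distrib, ← Finset.mul_sum, ← Finset.mul_sum,
    ← Finset.sum_mul, sum_cover N hML, sum_cover N hML, sum_cover N hML, ← hEdef] at hsum
  have hfD : ∑ x ∈ univ \ Dm, f x ≤ ∑ x, f x :=
    Finset.sum_le_sum_of_subset_of_nonneg (Finset.subset_univ _) (fun x _ _ => hf x)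
  have hE0 : 0 ≤ E := Finset.sum_nonneg fun x _ => Finset.sum_nonneg fun y _ => hh0 x y
  set S := ∑ x ∈ univ \ Dm, f x ^ 2 with hS
  set F := ∑ x, f x with hF
  have h10 : (N : ℝ) ^ d / 2 * S ≤ (1 / 2) * (C * M ^ (d + 2) * E) + F * F := by
    have h11 : (N : ℝ) ^ d * ((N : ℝ) ^ d / 2 * S) ≤
        (N : ℝ) ^ d * ((1 / 2) * (C * M ^ (d + 2) * E) + F * F) := by
      calc (N : ℝ) ^ d * ((N : ℝ) ^ d / 2 * S) = (N : ℝ) ^ d / 2 * ((N : ℝ) ^ d * S) := by ring
        _ ≤ _ := hsum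
        _ ≤ (1 / 2) * (C * M ^ (d + 2) * ((N : ℝ) ^ d * E)) + (N : ℝ) ^ d * F * F := by
          have : (N : ℝ) ^ d * ∑ x ∈ univ \ Dm, f x ≤ (N : ℝ) ^ d * F :=
            mul_le_mul_of_nonneg_left hfD hNR.le
          have := mul_le_mul_of_nonneg_right this hfs
          linarith
        _ = _ := by ring
    exact le_of_mul_le_mul_left h11 hNR
  have h12 : S ≤ (C * M ^ (d + 2) * E) / (N : ℝ) ^ d + 2 * (F * F) / (N : ℝ) ^ d := by
    rw [← add_div, le_div_iff₀ hNR]
    linarith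
  have hMR : (0 : ℝ) < M := by exact_mod_cast hM
  have hrR : (0 : ℝ) < r := by exact_mod_cast hr
  have h13 : (C * M ^ (d + 2) * E) / (N : ℝ) ^ d = C * M ^ 2 / r ^ d * E := by
    rw [hN]
    push_cast
    rw [mul_pow, pow_add]
    field_simp
  have h14 : 0 ≤ (M : ℝ) ^ 2 / r ^ d * E := by positivity
  have h15 : 0 ≤ F * F / (N : ℝ) ^ d := by positivity
  calc S ≤ C * M ^ 2 / r ^ d * E + 2 * (F * F) / (N : ℝ) ^ d := by rw [← h13]; exact h12
    _ = C * ((M : ℝ) ^ 2 / r ^ d * E) + 2 * (F * F / (N : ℝ) ^ d) := by ring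
    _ ≤ (C + 1) * ((M : ℝ) ^ 2 / r ^ d * E) + (C + 1) * (F * F / (N : ℝ) ^ d) := by
        gcongr
        · linarith
        · linarith
    _ = (C + 1) * M ^ 2 / r ^ d * E + (C + 1) / (N : ℝ) ^ d * F ^ 2 := by ring

end Pool.Agent.Q187.LC.Nas
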