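import Pool.Agent.Q292.LC.Stm4

/-!
# Project LC: time reversal (job LC-REV of helper292)
-/

set_option autoImplicit false

namespace Pool.Agent.Q187.LC.Rev

open Finset Equiv Matrix Q292.LC

section gen

variable {V : Type} [DecidableEq V]

theorem gp_succ (e : ℕ → V × V) (ω : ℕ → Bool) (k : ℕ) :
    gp e ω (k + 1) = if ω k then swap (e k).1 (e k).2 * gp e ω k else gp e ω k := rfl

/-- reversal of positions -/
theorem gp_rev (e er : ℕ → V × V) (ω ωr : ℕ → Bool) (n : ℕ)
    (he : ∀ k < n, er k = e (n - 1 - k)) (hω : ∀ k < n, ωr k = ω (n - 1 - k)) :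
    ∀ k ≤ n, gp er ωr k * gp e ω n = gp e ω (n - k) := by
  intro k
  induction k with
  | zero => intro _; simp [gp]
  | succ k ih =>
    intro hk
    have hk' : k < n := hk
    have h1 := ih hk'.le
    have h2 : n - k = (n - 1 - k) + 1 := by omega
    have h3 : n - (k + 1) = n - 1 - k := by omega
    rw [gp_succ, he k hk', hω k hk', h3]
    rw [h2, gp_succ] at h1
    by_cases hb : ω (n - 1 - k) = true
    · rw [if_pos hb] at h1 ⊢
      rw [mul_assoc, h1, ← mul_assoc, Equiv.swap_mul_self, one_mul]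
    · rw [if_neg hb] at h1 ⊢
      exact h1

theorem tch_rev (e er : ℕ → V × V) (ω ωr : ℕ → Bool) (n : ℕ)
    (he : ∀ k < n, er k = e (n - 1 - k)) (hω : ∀ k < n, ωr k = ω (n - 1 - k)) (A : Finset V) :
    ∀ k < n, (tch er ωr (A.image (gp e ω n)) k ↔ tch e ω A (n - 1 - k)) := by
  intro k hk
  have h2 : n - k = (n - 1 - k) + 1 := by omega
  have hg : ∀ a, gp er ωr k (gp e ω n a) = gp e ω (n - k) a := by
    intro a
    rw [← gp_rev e er ω ωr n he hω k hk.le]; rfl
  have key : ∀ a, (gp e ω (n - k) a = (e (n - 1 - k)).1 ∨ gp e ω (n - k) a = (e (n - 1 - k)).2) ↔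
      (gp e ω (n - 1 - k) a = (e (n - 1 - k)).1 ∨ gp e ω (n - 1 - k) a = (e (n - 1 - k)).2) := by
    intro a
    rw [h2, gp_succ]
    by_cases hb : ω (n - 1 - k) = true
    · rw [if_pos hb]
      rw [Perm.mul_apply]
      generalize gp e ω (n - 1 - k) a = t
      generalize e (n - 1 - k) = p
      constructor
      · rintro (h | h)
        · right
          have := congrArg (swap p.1 p.2) h
          rwa [Equiv.swap_apply_self, Equiv.swap_apply_left] at this
        · left
          have := congrArg (swap p.1 p.2) h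
          rwa [Equiv.swap_apply_self, Equiv.swap_apply_right] at this
      · rintro (h | h)
        · right; rw [h, Equiv.swap_apply_left]
        · left; rw [h, Equiv.swap_apply_right]
    · rw [if_neg hb]
  unfold tch
  rw [he k hk]
  constructor
  · rintro ⟨a, ha, h⟩
    obtain ⟨b, hb, rfl⟩ := Finset.mem_image.mp ha
    rw [hg] at h
    exact ⟨b, hb, (key b).mp h⟩
  · rintro ⟨b, hb, h⟩
    refine ⟨gp e ω n b, Finset.mem_image_of_mem _ hb, ?_⟩
    rw [hg]
    exact (key b).mpr h

theorem pm_swap_tr (a b : V) : (pm (swap a b))ᵀ = pm (swap a b) := by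
  ext x y
  simp only [pm, Matrix.transpose_apply, Matrix.of_apply]
  have : (swap a b y = x) ↔ (swap a b x = y) := by
    constructor
    · intro h; rw [← h, Equiv.swap_apply_self]
    · intro h; rw [← h, Equiv.swap_apply_self]
  simp only [this]

theorem Mx_rev (e er : ℕ → V × V) (ω ωr : ℕ → Bool) (n : ℕ)
    (he : ∀ k < n, er k = e (n - 1 - k)) (hω : ∀ k < n, ωr k = ω (n - 1 - k)) (A : Finset V)
    (δ : ℝ) : ∀ k < n, (Mx er ωr (A.image (gp e ω n)) δ k)ᵀ = Mx e ω A δ (n - 1 - k) := by
  intro k hk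
  unfold Mx
  have h1 := tch_rev e er ω ωr n he hω A k hk
  by_cases ht : tch e ω A (n - 1 - k)
  · rw [if_pos ht, if_pos (h1.mpr ht), he k hk, hω k hk]
    split_ifs
    · exact pm_swap_tr _ _
    · exact Matrix.transpose_one
  · rw [if_neg ht, if_neg (fun h => ht (h1.mp h)), he k hk]
    unfold fr
    rw [Matrix.transpose_add, Matrix.transpose_smul, Matrix.transpose_smul, pm_swap_tr,
      Matrix.transpose_one]

theorem TT_rev [Fintype V] (e er : ℕ → V × V) (ω ωr : ℕ → Bool) (n : ℕ)
    (he : ∀ k < n, er k = e (n - 1 - k)) (hω : ∀ k < n, ωr k = ω (n - 1 - k)) (A : Finset V)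
    (δ : ℝ) : ∀ k ≤ n, TT e ω A δ (n - k) * (TT er ωr (A.image (gp e ω n)) δ k)ᵀ =
      TT e ω A δ n := by
  intro k
  induction k with
  | zero => intro _; simp [TT]
  | succ k ih =>
    intro hk
    have hk' : k < n := hk
    have h2 : n - k = (n - 1 - k) + 1 := by omega
    have h3 : n - (k + 1) = n - 1 - k := by omega
    rw [← ih hk'.le, h3, h2]
    show TT e ω A δ (n - 1 - k) * (TT er ωr (A.image (gp e ω n)) δ k *
      Mx er ωr (A.image (gp e ω n)) δ k)ᵀ = TT e ω A δ (n - 1 - k) * Mx e ω A δ (n - 1 - k) *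
        (TT er ωr (A.image (gp e ω n)) δ k)ᵀ
    rw [Matrix.transpose_mul, Mx_rev e er ω ωr n he hω A δ k hk', ← Matrix.mul_assoc]

end gen

section torus

variable {d L : ℕ} [NeZero L]

theorem ms_pos (hd : 1 ≤ d) : 0 < ms d L := by
  unfold ms
  have : 0 < L := Nat.pos_of_ne_zero (NeZero.ne L)
  positivity

theorem per_mul {σ : ℕ → (Fin d → ZMod L) × Fin d} (h : Per σ) (k j : ℕ) :
    σ (k + j * ms d L) = σ k := by
  induction j with
  | zero => simp
  | succ j ih => rw [add_mul, one_mul, ← add_assoc, h.1, ih]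

theorem per_mod {σ : ℕ → (Fin d → ZMod L) × Fin d} (h : Per σ) (k : ℕ) :
    σ k = σ (k % ms d L) := by
  conv_lhs => rw [← Nat.mod_add_div k (ms d L), mul_comm (ms d L)]
  exact per_mul h _ _

theorem per_rvs (hd : 1 ≤ d) {σ : ℕ → (Fin d → ZMod L) × Fin d} (h : Per σ) : Per (rvs σ) := by
  have hm : 0 < ms d L := ms_pos hd
  refine ⟨fun k => ?_, ?_⟩
  · unfold rvs
    rw [Nat.add_mod_right]
  · have h1 : Set.BijOn (fun k => ms d L - 1 - k) (Set.Iio (ms d L)) (Set.Iio (ms d L)) := by
      refine ⟨?_, ?_, ?_⟩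
      · intro k hk; simp only [Set.mem_Iio] at hk ⊢; omega
      · intro a ha b hb hab
        simp only [Set.mem_Iio] at ha hb
        simp only at hab
        omega
      · intro k hk
        simp only [Set.mem_Iio] at hk
        exact ⟨ms d L - 1 - k, by simp only [Set.mem_Iio]; omega, by simp only; omega⟩
    have h2 := h.2.comp h1
    refine h2.congr ?_
    intro k hk
    simp only [Set.mem_Iio] at hk
    simp only [Function.comp, rvs, Nat.mod_eq_of_lt hk]

theorem rvs_eq (hd : 1 ≤ d) {σ : ℕ → (Fin d → ZMod L) × Fin d} (h : Per σ) (J : ℕ) :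
    ∀ k < J * ms d L, rvs σ k = σ (J * ms d L - 1 - k) := by
  intro k hk
  have hm : 0 < ms d L := ms_pos hd
  unfold rvs
  rw [per_mod h (J * ms d L - 1 - k)]
  congr 1
  have h1 := Nat.mod_add_div k (ms d L)
  have h3 : k / ms d L < J := Nat.div_lt_of_lt_mul (by rwa [mul_comm] at hk)
  have h2 : k % ms d L < ms d L := Nat.mod_lt _ hm
  set a := k % ms d L with ha
  set b := k / ms d L with hb
  obtain ⟨c, hc⟩ : ∃ c, J = b + 1 + c := ⟨J - (b + 1), by omega⟩
  have h4 : J * ms d L - 1 - k = (ms d L - 1 - a) + c * ms d L := by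
    have : J * ms d L = b * ms d L + ms d L + c * ms d L := by rw [hc]; ring
    rw [this, ← h1]
    have : ms d L * b = b * ms d L := mul_comm _ _
    omega
  rw [h4, Nat.add_mul_mod_self_right, Nat.mod_eq_of_lt (by omega)]

end torus

theorem jumps_rev {V : Type} [DecidableEq V] (e er : ℕ → V × V) (ω ωr : ℕ → Bool) (n : ℕ)
    (he : ∀ k < n, er k = e (n - 1 - k)) (hω : ∀ k < n, ωr k = ω (n - 1 - k)) (a b : ℕ)
    (hab : a ≤ b) (hb : b ≤ n) (x : V) :
    jumps er ωr a b (gp e ω n x) = jumps e ω (n - b) (n - a) x := by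
  unfold jumps
  have htch : ∀ k < n, (tch er ωr {gp e ω n x} k ↔ tch e ω {x} (n - 1 - k)) := by
    intro k hk
    have := tch_rev e er ω ωr n he hω {x} k hk
    rwa [Finset.image_singleton] at this
  refine Finset.card_bij' (fun k _ => n - 1 - k) (fun k _ => n - 1 - k) ?_ ?_ ?_ ?_
  · intro k hk
    simp only [Finset.mem_filter, Finset.mem_Ico] at hk ⊢
    obtain ⟨⟨h1, h2⟩, h3, h4⟩ := hk
    have hkn : k < n := by omega
    refine ⟨⟨by omega, by omega⟩, ?_, (htch k hkn).mp h4⟩
    rw [← hω k hkn]; exact h3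
  · intro k hk
    simp only [Finset.mem_filter, Finset.mem_Ico] at hk ⊢
    obtain ⟨⟨h1, h2⟩, h3, h4⟩ := hk
    have hkn : n - 1 - k < n := by omega
    have hkk : n - 1 - (n - 1 - k) = k := by omega
    refine ⟨⟨by omega, by omega⟩, ?_, (htch _ hkn).mpr (by rw [hkk]; exact h4)⟩
    rw [hω _ hkn, hkk]; exact h3
  · intro k hk
    simp only [Finset.mem_filter, Finset.mem_Ico] at hk
    omega
  · intro k hk
    simp only [Finset.mem_filter, Finset.mem_Ico] at hk
    omega

theorem rev : S_REV := by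
  intro d L _ hd hL σ hσ q K lam r ρ κ₀ ω A δ
  have hm : 0 < ms d L := ms_pos hd
  set n := K * (q * ms d L) with hn
  have hn' : n = (K * q) * ms d L := by rw [hn]; ring
  have he : ∀ k < n, (ed ∘ rvs σ) k = (ed ∘ σ) (n - 1 - k) := by
    intro k hk
    simp only [Function.comp]
    rw [hn'] at hk ⊢
    rw [rvs_eq hd hσ (K * q) k hk]
  have hω : ∀ k < n, rvo n ω k = ω (n - 1 - k) := by
    intro k hk
    unfold rvo
    rw [if_pos hk]
  have hg := gp_rev (ed ∘ σ) (ed ∘ rvs σ) ω (rvo n ω) n he hω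
  have hg' : ∀ k ≤ n, ∀ a, gp (ed ∘ rvs σ) (rvo n ω) k (gp (ed ∘ σ) ω n a) =
      gp (ed ∘ σ) ω (n - k) a := by
    intro k hk a
    rw [← hg k hk]; rfl
  refine ⟨per_rvs hd hσ, ?_, ?_⟩
  · rintro ⟨E1, E2, E3⟩
    refine ⟨?_, ?_, ?_⟩
    · intro j hj v
      have h1 : j * (q * ms d L) ≤ n := Nat.mul_le_mul_right _ hj
      have h2 : (A.image (gp (ed ∘ σ) ω n)).image (gp (ed ∘ rvs σ) (rvo n ω) (j * (q * ms d L))) =
          A.image (gp (ed ∘ σ) ω ((K - j) * (q * ms d L))) := by
        rw [Finset.image_image]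
        apply Finset.image_congr
        intro a _
        simp only [Function.comp_apply]
        rw [hg' _ h1, hn, Nat.sub_mul]
      rw [h2]
      exact E1 (K - j) (Nat.sub_le _ _) v
    · intro j hj a ha
      obtain ⟨b, hb, rfl⟩ := Finset.mem_image.mp ha
      have h1 : (j + 1) * (q * ms d L) ≤ n := Nat.mul_le_mul_right _ hj
      rw [jumps_rev (ed ∘ σ) (ed ∘ rvs σ) ω (rvo n ω) n he hω _ _
        (Nat.mul_le_mul_right _ (Nat.le_succ j)) h1 b]
      have h2 := E2 (K - (j + 1)) (by omega) b hb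
      have h3 : n - (j + 1) * (q * ms d L) = (K - (j + 1)) * (q * ms d L) := by
        rw [hn, Nat.sub_mul]
      have h4 : n - j * (q * ms d L) = (K - (j + 1) + 1) * (q * ms d L) := by
        have : K - (j + 1) + 1 = K - j := by omega
        rw [this, hn, Nat.sub_mul]
      rw [h3, h4]
      exact h2
    · intro a ha b hb hab
      obtain ⟨a', ha', rfl⟩ := Finset.mem_image.mp ha
      obtain ⟨b', hb', rfl⟩ := Finset.mem_image.mp hb
      have hab' : a' ≠ b' := fun h => hab (by rw [h])
      refine le_trans (le_of_eq ?_) (E3 a' ha' b' hb' hab')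
      refine Finset.card_bij' (fun s _ => K * q - s) (fun s _ => K * q - s) ?_ ?_ ?_ ?_
      · intro s hs
        simp only [Finset.mem_filter, Finset.mem_range] at hs ⊢
        have hs1 : s ≤ K * q := by omega
        have hs2 : s * ms d L ≤ n := by rw [hn']; exact Nat.mul_le_mul_right _ hs1
        refine ⟨by omega, ?_⟩
        have h5 := hs.2
        rw [hg' _ hs2, hg' _ hs2] at h5
        rwa [Nat.sub_mul, ← hn']
      · intro s hs
        simp only [Finset.mem_filter, Finset.mem_range] at hs ⊢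
        have hs1 : K * q - s ≤ K * q := by omega
        have hs2 : (K * q - s) * ms d L ≤ n := by rw [hn']; exact Nat.mul_le_mul_right _ hs1
        refine ⟨by omega, ?_⟩
        rw [hg' _ hs2, hg' _ hs2]
        have h6 : n - (K * q - s) * ms d L = s * ms d L := by
          rw [hn', ← Nat.sub_mul]
          congr 1
          omega
        rw [h6]
        exact hs.2
      · intro s hs
        simp only [Finset.mem_filter, Finset.mem_range] at hs
        omega
      · intro s hs
        simp only [Finset.mem_filter, Finset.mem_range] at hs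
        omega
  · have h := TT_rev (ed ∘ σ) (ed ∘ rvs σ) ω (rvo n ω) n he hω A δ n le_rfl
    rw [Nat.sub_self] at h
    have h0 : TT (ed ∘ σ) ω A δ 0 = 1 := rfl
    rw [h0, one_mul] at h
    rw [← h, Matrix.transpose_transpose]

end Pool.Agent.Q187.LC.Rev
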