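import Pool.Agent.Q292.LC.Stm3

/-!
# Project LC: number of touching steps (job LC-TCH of helper292)
-/

set_option autoImplicit false

namespace Pool.Agent.Q187.LC.Tch

open Finset Equiv Matrix Q292.LC

section gen

variable {V : Type} [DecidableEq V]

theorem gp_step (e : ℕ → V × V) (ω : ℕ → Bool) (k : ℕ) (x : V)
    (h : ¬ (ω k = true ∧ tch e ω {x} k)) : gp e ω (k + 1) x = gp e ω k x := by
  show (if ω k then swap (e k).1 (e k).2 * gp e ω k else gp e ω k) x = gp e ω k x
  by_cases hb : ω k = true
  · rw [if_pos hb, Perm.mul_apply]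
    have h2 : ¬ tch e ω {x} k := fun h3 => h ⟨hb, h3⟩
    have h3 : ¬ (gp e ω k x = (e k).1 ∨ gp e ω k x = (e k).2) := by
      intro h4
      exact h2 ⟨x, Finset.mem_singleton_self x, h4⟩
    push Not at h3
    exact Equiv.swap_apply_of_ne_of_ne h3.1 h3.2
  · rw [if_neg hb]

theorem jumps_split (e : ℕ → V × V) (ω : ℕ → Bool) (a b c : ℕ) (hab : a ≤ b) (hbc : b ≤ c)
    (x : V) : jumps e ω a c x = jumps e ω a b x + jumps e ω b c x := by
  unfold jumps
  rw [← Finset.card_union_of_disjoint]
  · congr 1
    rw [← Finset.filter_union, Finset.Ico_union_Ico_eq_Ico hab hbc]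
  · apply Finset.disjoint_filter_filter
    exact Finset.Ico_disjoint_Ico_consecutive a b c

theorem gp_const (e : ℕ → V × V) (ω : ℕ → Bool) (a : ℕ) (x : V) (m : ℕ)
    (h : jumps e ω a (a + m) x = 0) : gp e ω (a + m) x = gp e ω a x := by
  induction m with
  | zero => rfl
  | succ m ih =>
    rw [jumps_split e ω a (a + m) (a + (m + 1)) (by omega) (by omega)] at h
    have h1 := ih (by omega)
    have h2 : jumps e ω (a + m) (a + (m + 1)) x = 0 := by omega
    rw [← h1]
    show gp e ω (a + m + 1) x = gp e ω (a + m) x
    apply gp_step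
    intro h3
    unfold jumps at h2
    rw [Finset.card_eq_zero] at h2
    have h4 : (a + m) ∈ (Finset.Ico (a + m) (a + (m + 1))).filter
        fun k => ω k = true ∧ tch e ω {x} k := by
      rw [Finset.mem_filter, Finset.mem_Ico]
      exact ⟨⟨by omega, by omega⟩, h3⟩
    rw [h2] at h4
    simp at h4

end gen

theorem upd_inj {d L : ℕ} (u v : Fin d → ZMod L) (i : Fin d)
    (h : Function.update u i (u i + 1) = Function.update v i (v i + 1)) : u = v := by
  ext j
  have hj := congrFun h j
  by_cases hji : j = i
  · subst hji
    rw [Function.update_self, Function.update_self] at hj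
    exact add_right_cancel hj
  · rw [Function.update_of_ne hji, Function.update_of_ne hji] at hj
    exact hj

theorem per_mod {d L : ℕ} {σ : ℕ → (Fin d → ZMod L) × Fin d} (h : Per σ) (k : ℕ) :
    σ k = σ (k % ms d L) := by
  have h1 : ∀ k j, σ (k + j * ms d L) = σ k := by
    intro k j
    induction j with
    | zero => simp
    | succ j ih => rw [add_mul, one_mul, ← add_assoc, h.1, ih]
  conv_lhs => rw [← Nat.mod_add_div k (ms d L), mul_comm (ms d L)]
  exact h1 _ _

theorem tch : S_TCH := by
  intro d L _ hL σ hσ ω s x
  classical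
  set e := ed ∘ σ with he
  set J := jumps e ω 0 (s * ms d L) x with hJ
  set f : ℕ → ℕ × (Fin d × Bool) := fun k =>
    (k / ms d L + jumps e ω 0 k x, ((σ k).2, decide (gp e ω k x = (σ k).1))) with hf
  have hcard : (Finset.range (s + J) ×ˢ (Finset.univ : Finset (Fin d × Bool))).card =
      2 * d * (s + J) := by
    rw [Finset.card_product, Finset.card_range, Finset.card_univ, Fintype.card_prod,
      Fintype.card_fin, Fintype.card_bool]
    ring
  rw [← hcard]
  refine Finset.card_le_card_of_injOn f ?_ ?_
  · intro k hk
    simp only [Finset.coe_filter, Finset.mem_range, Set.mem_ofPred_eq] at hk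
    obtain ⟨h1, -⟩ := hk
    have h2 : k / ms d L < s := Nat.div_lt_of_lt_mul (by rwa [mul_comm] at h1)
    have h3 := jumps_split e ω 0 k (s * ms d L) (Nat.zero_le _) h1.le x
    simp only [Finset.coe_product, Finset.coe_range, Finset.coe_univ, Set.mem_prod, Set.mem_Iio,
      Set.mem_univ, and_true, hf]
    omega
  · have key : ∀ k k', k < k' → k' < s * ms d L → Q292.LC.tch e ω {x} k →
        Q292.LC.tch e ω {x} k' → f k = f k' → False := by
      intro k k' hkk hk' ht ht' hff
      have hm : 0 < ms d L := by
        rcases Nat.eq_zero_or_pos (ms d L) with h | h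
        · rw [h] at hk'; omega
        · exact h
      have hdiv : k / ms d L ≤ k' / ms d L := Nat.div_le_div_right hkk.le
      have hj := jumps_split e ω 0 k k' (Nat.zero_le _) hkk.le x
      simp only [hf, Prod.mk.injEq, decide_eq_decide] at hff
      obtain ⟨h1, h2, h3⟩ := hff
      have hj0 : jumps e ω k k' x = 0 := by omega
      have hdd : k / ms d L = k' / ms d L := by omega
      have hpos : gp e ω k' x = gp e ω k x := by
        have := gp_const e ω k x (k' - k) (by
          rw [show k + (k' - k) = k' by omega]; exact hj0)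
        rwa [show k + (k' - k) = k' by omega] at this
      have hedge : σ k = σ k' := by
        apply Prod.ext _ h2
        by_cases hs : gp e ω k x = (σ k).1
        · rw [← hs, ← hpos]
          exact h3.mp hs
        · have hs' : ¬ gp e ω k' x = (σ k').1 := fun h => hs (h3.mpr h)
          obtain ⟨a, ha, hta⟩ := ht
          obtain ⟨b, hb, htb⟩ := ht'
          rw [Finset.mem_singleton] at ha hb
          rw [ha] at hta
          rw [hb] at htb
          have h5 : gp e ω k x = Function.update (σ k).1 (σ k).2 ((σ k).1 (σ k).2 + 1) := by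
            rcases hta with h | h
            · exact absurd h hs
            · exact h
          have h6 : gp e ω k' x = Function.update (σ k').1 (σ k').2 ((σ k').1 (σ k').2 + 1) := by
            rcases htb with h | h
            · exact absurd h hs'
            · exact h
          rw [hpos, h5, ← h2] at h6
          exact upd_inj _ _ _ h6
      rw [per_mod hσ k, per_mod hσ k'] at hedge
      have h7 := hσ.2.injOn (Set.mem_Iio.mpr (Nat.mod_lt k hm))
        (Set.mem_Iio.mpr (Nat.mod_lt k' hm)) hedge
      have h8 := Nat.mod_add_div k (ms d L)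
      have h9 := Nat.mod_add_div k' (ms d L)
      rw [← hdd, ← h7, h8] at h9
      omega
    intro k hk k' hk' hff
    simp only [Finset.coe_filter, Finset.mem_range, Set.mem_ofPred_eq] at hk hk'
    rcases lt_trichotomy k k' with h | h | h
    · exact (key k k' h hk'.1 hk.2 hk'.2 hff).elim
    · exact h
    · exact (key k' k h hk.1 hk'.2 hk.2 hff.symm).elim

end Pool.Agent.Q187.LC.Tch
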